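import Pool.Agent.W555.EQ.Stm

set_option autoImplicit false

/-! EQ-AUTA : generic tuples are dense. -/

namespace Pool.Agent.W86.EQ

open Pool.Agent.W555.EQ

lemma countable_mvPolynomial (α : Type) [Finite α] : Countable (MvPolynomial α ℚ) := by
  rw [← Cardinal.mk_le_aleph0_iff]
  exact (MvPolynomial.cardinalMk_le_max).trans (by simp)

theorem autA : StAutA := by
  intro E hE
  induction E using Finite.induction_empty_option with
  | of_equiv e ih =>
    intro c δ hδ
    obtain ⟨x, hx, hc⟩ := ih (fun a => c (e a)) δ hδ
    refine ⟨fun b => x (e.symm b), hx.comp _ e.symm.injective, fun b => ?_⟩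
    have := hc (e.symm b)
    simpa using this
  | h_empty =>
    intro c δ hδ
    refine ⟨fun a => a.elim, ?_, fun a => a.elim⟩
    rw [algebraicIndependent_empty_type_iff]
    exact FaithfulSMul.algebraMap_injective ℚ ℂ
  | @h_option α _ ih =>
    intro c δ hδ
    obtain ⟨x, hx, hc⟩ := ih (fun a => c (some a)) δ hδ
    have hcount : Countable (Algebra.adjoin ℚ (Set.range x)) := by
      rw [Algebra.adjoin_range_eq_range_aeval]
      have := countable_mvPolynomial α
      exact (Set.countable_range (MvPolynomial.aeval (R := ℚ) x)).to_subtype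
    have hS : {t : ℂ | IsAlgebraic (Algebra.adjoin ℚ (Set.range x)) t}.Countable :=
      Algebraic.countable _ _
    obtain ⟨t, ht, hb⟩ := (hS.dense_compl ℝ).exists_dist_lt (c none) hδ
    refine ⟨fun o => o.elim t x, ?_, ?_⟩
    · rw [hx.option_iff_transcendental]
      exact ht
    · intro o
      cases o with
      | none => simpa [dist_eq_norm, norm_sub_rev] using hb
      | some a => simpa using hc a

end Pool.Agent.W86.EQ
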